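import Pool.Agent.Lib.MP_39c2b7_co.Interfaces2

/-!
# Strong arboricity: module DISCH (discharging)
-/

set_option linter.all false

namespace StrongArb.H27

/-- class of a vertex -/
noncomputable def cls {V : Type} (G : SimpleGraph V) (X : Set V) (v : V) : ℕ := kc (stat G X v)

lemma stat_le {V : Type} (G : SimpleGraph V) (X : Set V) (v : V) : stat G X v ≤ 9 := by
  unfold stat
  split_ifs with h
  · have := h.2; omega
  · exact le_rfl

lemma cls_mem {V : Type} (G : SimpleGraph V) (X : Set V) (v : V) :
    cls G X v ∈ Finset.Icc 6 9 := by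
  have h := stat_le G X v
  rw [Finset.mem_Icc]
  unfold cls kc
  split_ifs with h1 <;> omega

lemma seven_kc (s : ℕ) : 7 ≤ kc s ↔ 7 ≤ s := by
  unfold kc
  split_ifs with h <;> omega

open Classical in
/-- the weights -/
noncomputable def wt {V : Type} (T : WTable) (G : SimpleGraph V) (X : Set V) (t h : V) : ℕ :=
  if t ∈ X ∧ dg G t = 4 then
    if H : ∃ q : V × V × V, IsLink G t [h, q.1, q.2.1, q.2.2] then
      T.w4 (cls G X h) (cls G X H.choose.1) (cls G X H.choose.2.1) (cls G X H.choose.2.2)
    else 0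
  else if t ∈ X ∧ dg G t = 5 then
    if H : ∃ q : V × V × V × V, IsLink G t [h, q.1, q.2.1, q.2.2.1, q.2.2.2] then
      T.w5 (cls G X h) (cls G X H.choose.1) (cls G X H.choose.2.1) (cls G X H.choose.2.2.1)
        (cls G X H.choose.2.2.2)
    else 0
  else 0

lemma uniq4 {V : Type} {G : SimpleGraph V} {t h x y z x' y' z' : V}
    (h1 : IsLink G t [h, x, y, z]) (h2 : IsLink G t [h, x', y', z']) :
    y' = y ∧ ((x' = x ∧ z' = z) ∨ (x' = z ∧ z' = x)) := by
  have a01 := h1.adj 0 1 (by simp) (by simp)
  have a02 := h1.adj 0 2 (by simp) (by simp)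
  have a03 := h1.adj 0 3 (by simp) (by simp)
  have b01 := h2.adj 0 1 (by simp) (by simp)
  have b02 := h2.adj 0 2 (by simp) (by simp)
  have b03 := h2.adj 0 3 (by simp) (by simp)
  simp [CycAdj] at a01 a02 a03 b01 b02 b03
  have n2 := h2.nodup
  simp only [List.nodup_cons, List.mem_cons, List.not_mem_nil, or_false, not_or,
    not_false_eq_true, List.nodup_nil, and_true] at n2
  have mx : x' ∈ [h, x, y, z] := (h1.mem x').2 ((h2.mem x').1 (by simp))
  have my : y' ∈ [h, x, y, z] := (h1.mem y').2 ((h2.mem y').1 (by simp))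
  have mz : z' ∈ [h, x, y, z] := (h1.mem z').2 ((h2.mem z').1 (by simp))
  simp only [List.mem_cons, List.not_mem_nil, or_false] at mx my mz
  have hx : x' = x ∨ x' = z := by
    rcases mx with rfl | rfl | rfl | rfl
    · exact absurd rfl n2.1.1
    · exact Or.inl rfl
    · exact absurd b01 a02
    · exact Or.inr rfl
  have hz : z' = x ∨ z' = z := by
    rcases mz with rfl | rfl | rfl | rfl
    · exact absurd rfl n2.1.2.2
    · exact Or.inl rfl
    · exact absurd b03 a02
    · exact Or.inr rfl
  have hy : y' = y := by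
    rcases my with rfl | rfl | rfl | rfl
    · exact absurd rfl n2.1.2.1
    · exact absurd a01 b02
    · rfl
    · exact absurd a03 b02
  refine ⟨hy, ?_⟩
  rcases hx with rfl | rfl
  · rcases hz with rfl | rfl
    · exact absurd rfl n2.2.1.2
    · exact Or.inl ⟨rfl, rfl⟩
  · rcases hz with rfl | rfl
    · exact Or.inr ⟨rfl, rfl⟩
    · exact absurd rfl n2.2.1.2

lemma uniq5 {V : Type} {G : SimpleGraph V} {t h x y z u x' y' z' u' : V}
    (h1 : IsLink G t [h, x, y, z, u]) (h2 : IsLink G t [h, x', y', z', u']) :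
    (x' = x ∧ y' = y ∧ z' = z ∧ u' = u) ∨ (x' = u ∧ y' = z ∧ z' = y ∧ u' = x) := by
  have a01 := h1.adj 0 1 (by simp) (by simp)
  have a02 := h1.adj 0 2 (by simp) (by simp)
  have a03 := h1.adj 0 3 (by simp) (by simp)
  have a04 := h1.adj 0 4 (by simp) (by simp)
  have a12 := h1.adj 1 2 (by simp) (by simp)
  have a13 := h1.adj 1 3 (by simp) (by simp)
  have a42 := h1.adj 4 2 (by simp) (by simp)
  have a43 := h1.adj 4 3 (by simp) (by simp)
  have b01 := h2.adj 0 1 (by simp) (by simp)
  have b02 := h2.adj 0 2 (by simp) (by simp)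
  have b03 := h2.adj 0 3 (by simp) (by simp)
  have b04 := h2.adj 0 4 (by simp) (by simp)
  have b12 := h2.adj 1 2 (by simp) (by simp)
  have b13 := h2.adj 1 3 (by simp) (by simp)
  have b42 := h2.adj 4 2 (by simp) (by simp)
  have b43 := h2.adj 4 3 (by simp) (by simp)
  simp [CycAdj] at a01 a02 a03 a04 a12 a13 a42 a43 b01 b02 b03 b04 b12 b13 b42 b43
  have n2 := h2.nodup
  simp only [List.nodup_cons, List.mem_cons, List.not_mem_nil, or_false, not_or,
    not_false_eq_true, List.nodup_nil, and_true] at n2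
  have mx : x' ∈ [h, x, y, z, u] := (h1.mem x').2 ((h2.mem x').1 (by simp))
  have my : y' ∈ [h, x, y, z, u] := (h1.mem y').2 ((h2.mem y').1 (by simp))
  have mz : z' ∈ [h, x, y, z, u] := (h1.mem z').2 ((h2.mem z').1 (by simp))
  have mu : u' ∈ [h, x, y, z, u] := (h1.mem u').2 ((h2.mem u').1 (by simp))
  simp only [List.mem_cons, List.not_mem_nil, or_false] at mx my mz mu
  have hx : x' = x ∨ x' = u := by
    rcases mx with rfl | rfl | rfl | rfl | rfl
    · exact absurd rfl n2.1.1
    · exact Or.inl rfl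
    · exact absurd b01 a02
    · exact absurd b01 a03
    · exact Or.inr rfl
  have hu : u' = x ∨ u' = u := by
    rcases mu with rfl | rfl | rfl | rfl | rfl
    · exact absurd rfl n2.1.2.2.2
    · exact Or.inl rfl
    · exact absurd b04 a02
    · exact absurd b04 a03
    · exact Or.inr rfl
  have hy : y' = y ∨ y' = z := by
    rcases my with rfl | rfl | rfl | rfl | rfl
    · exact absurd rfl n2.1.2.1
    · exact absurd a01 b02
    · exact Or.inl rfl
    · exact Or.inr rfl
    · exact absurd a04 b02
  have hz : z' = y ∨ z' = z := by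
    rcases mz with rfl | rfl | rfl | rfl | rfl
    · exact absurd rfl n2.1.2.2.1
    · exact absurd a01 b03
    · exact Or.inl rfl
    · exact Or.inr rfl
    · exact absurd a04 b03
  rcases hx with rfl | rfl
  · left
    have hu' : u' = u := by
      rcases hu with rfl | rfl
      · exact absurd rfl n2.2.1.2.2
      · rfl
    have hy' : y' = y := by
      rcases hy with rfl | rfl
      · rfl
      · exact absurd b12 a13
    have hz' : z' = z := by
      rcases hz with rfl | rfl
      · exact absurd hy' n2.2.2.1.1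
      · rfl
    exact ⟨rfl, hy', hz', hu'⟩
  · right
    have hu' : u' = x := by
      rcases hu with rfl | rfl
      · rfl
      · exact absurd rfl n2.2.1.2.2
    have hy' : y' = z := by
      rcases hy with rfl | rfl
      · exact absurd b12 a42
      · rfl
    have hz' : z' = y := by
      rcases hz with rfl | rfl
      · rfl
      · exact absurd hy' n2.2.2.1.1
    exact ⟨rfl, hy', hz', hu'⟩

section

variable {V : Type} {G : SimpleGraph V} {X : Set V} {T : WTable} {M : ℕ}

lemma wt4 (hT : T.Valid M) {t h x y z : V} (ht : t ∈ X) (hd : dg G t = 4)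
    (hl : IsLink G t [h, x, y, z]) :
    wt T G X t h = T.w4 (cls G X h) (cls G X x) (cls G X y) (cls G X z) := by
  have H : ∃ q : V × V × V, IsLink G t [h, q.1, q.2.1, q.2.2] := ⟨(x, y, z), hl⟩
  unfold wt
  rw [if_pos ⟨ht, hd⟩, dif_pos H]
  obtain ⟨hy, h1 | h1⟩ := uniq4 hl H.choose_spec
  · rw [hy, h1.1, h1.2]
  · rw [hy, h1.1, h1.2]
    exact (hT.refl4 _ (cls_mem G X h) _ (cls_mem G X x) _ (cls_mem G X y) _
      (cls_mem G X z)).symm

lemma wt5 (hT : T.Valid M) {t h x y z u : V} (ht : t ∈ X) (hd : dg G t = 5)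
    (hl : IsLink G t [h, x, y, z, u]) :
    wt T G X t h = T.w5 (cls G X h) (cls G X x) (cls G X y) (cls G X z) (cls G X u) := by
  have H : ∃ q : V × V × V × V, IsLink G t [h, q.1, q.2.1, q.2.2.1, q.2.2.2] :=
    ⟨(x, y, z, u), hl⟩
  unfold wt
  rw [if_neg (by rintro ⟨-, h4⟩; omega), if_pos ⟨ht, hd⟩, dif_pos H]
  rcases uniq5 hl H.choose_spec with h1 | h1
  · rw [h1.1, h1.2.1, h1.2.2.1, h1.2.2.2]
  · rw [h1.1, h1.2.1, h1.2.2.1, h1.2.2.2]
    exact (hT.refl5 _ (cls_mem G X h) _ (cls_mem G X x) _ (cls_mem G X y) _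
      (cls_mem G X z) _ (cls_mem G X u)).symm

lemma wt_ne (hT : T.Valid M) {t h : V} (hne : wt T G X t h ≠ 0) :
    t ∈ X ∧ G.Adj t h ∧ (dg G t = 4 ∨ dg G t = 5) ∧ 7 ≤ cls G X h := by
  have hc := Finset.mem_Icc.1 (cls_mem G X h)
  unfold wt at hne
  split_ifs at hne with h1 h2 h3 h4
  · refine ⟨h1.1, (h2.choose_spec.mem h).1 (by simp), Or.inl h1.2, ?_⟩
    by_contra hcon
    have : cls G X h = 6 := by omega
    rw [this] at hne
    exact hne (hT.zero4 _ _ _)
  · exact absurd rfl hne
  · refine ⟨h3.1, (h4.choose_spec.mem h).1 (by simp), Or.inr h3.2, ?_⟩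
    by_contra hcon
    have : cls G X h = 6 := by omega
    rw [this] at hne
    exact hne (hT.zero5 _ _ _ _)
  · exact absurd rfl hne
  · exact absurd rfl hne

/-- links of a vertex of degree four starting with two given adjacent neighbours -/
lemma link4 (hL : LinkApi) (hG : MinCE G) {t z z' : V} (hd : dg G t = 4) (h1 : G.Adj t z)
    (h2 : G.Adj t z') (h3 : G.Adj z z') : ∃ b c, IsLink G t [z, z', b, c] := by
  obtain ⟨l, hl⟩ := hG.link t
  obtain ⟨l', hl', hlen⟩ := hL.first V G t z z' l hl h1 h2 h3
  have h4 := hL.dg V G t l hl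
  have h5 : l'.length = 2 := by omega
  match l', h5, hl' with
  | [b, c], _, hl' => exact ⟨b, c, hl'⟩

lemma link5 (hL : LinkApi) (hG : MinCE G) {t z z' : V} (hd : dg G t = 5) (h1 : G.Adj t z)
    (h2 : G.Adj t z') (h3 : G.Adj z z') : ∃ b c d, IsLink G t [z, z', b, c, d] := by
  obtain ⟨l, hl⟩ := hG.link t
  obtain ⟨l', hl', hlen⟩ := hL.first V G t z z' l hl h1 h2 h3
  have h4 := hL.dg V G t l hl
  have h5 : l'.length = 3 := by omega
  match l', h5, hl' with
  | [b, c, d], _, hl' => exact ⟨b, c, d, hl'⟩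

/-- a common neighbour -/
lemma exists_common (hL : LinkApi) (hG : MinCE G) {t z : V} (h : G.Adj t z) :
    ∃ z', G.Adj t z' ∧ G.Adj z z' := by
  obtain ⟨l, hl⟩ := hG.link t
  obtain ⟨a, b, -, -, hab⟩ := hL.common V G t z l hl h
  have := (hab a).2 (Or.inl rfl)
  exact ⟨a, this.1.symm, this.2.symm⟩

lemma rot4 (hL : LinkApi) {t a b c d : V} (h : IsLink G t [a, b, c, d]) :
    IsLink G t [b, c, d, a] := hL.rotate V G t [a, b, c, d] 1 h

lemma rot5 (hL : LinkApi) {t a b c d e : V} (h : IsLink G t [a, b, c, d, e]) :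
    IsLink G t [b, c, d, e, a] := hL.rotate V G t [a, b, c, d, e] 1 h

lemma finsum_list {l : List V} (hl : l.Nodup) (f : V → ℕ) (hf : ∀ x, f x ≠ 0 → x ∈ l) :
    ∑ᶠ x, f x = (l.map f).sum := by
  classical
  rw [finsum_eq_sum_of_support_subset f (s := l.toFinset) (by
    intro x hx
    rw [Finset.mem_coe, List.mem_toFinset]
    exact hf x hx)]
  exact List.sum_toFinset f hl

lemma sum_range_list (D : ℕ) (g : ℕ → ℕ) :
    ((List.range D).map g).sum = ∑ i ∈ Finset.range D, g i := by
  induction D with
  | zero => simp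
  | succ D ih =>
    rw [List.range_succ, List.map_append, List.sum_append, ih, Finset.sum_range_succ]
    simp

end

theorem disch (hTot : TotalStatement) (hSeq : HubSeqStatement) (hHL : HubLinkStatement)
    (hHX : HubXStatement) (hL : LinkApi) : DischargeStatement := by
  intro T M cs certs hT hcs hlow4 hlow5 hcomb V G C X hG hR hex
  -- basic facts
  have hdg : ∀ v, 4 ≤ dg G v := by
    intro v
    obtain ⟨l, hl⟩ := hG.link v
    rw [hL.dg V G v l hl]
    exact hl.len
  have hpat : ∀ c ∈ cs, Excluded G X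
      (Pat.entries ⟨(certs.map (fun c => c.P.links)).getD c.pat [], 0, []⟩) := by
    intro c hc
    have h1 := (hcs c hc).2
    have h2 : (certs.map (fun c => c.P.links)).getD c.pat [] = (certs[c.pat]).P.links := by
      rw [List.getD_eq_getElem _ _ (by simpa using h1)]
      simp
    rw [h2]
    exact hex _ (List.getElem_mem h1)
  have hstat : ∀ (h : V) (n o : ℕ → V) (D : ℕ), HubSeq G h n o D →
      StatSeq D (fun i => stat G X (n i)) (fun i => stat G X (o i)) := by
    intro h n o D hs
    have hrange : ∀ v, 4 ≤ stat G X v := by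
      intro v
      unfold stat
      split_ifs with h1
      · exact hdg v
      · omega
    refine ⟨fun i => by simp only [hs.perN], fun i => by simp only [hs.perO],
      fun i => ⟨hrange _, stat_le G X _⟩, fun i => ⟨hrange _, stat_le G X _⟩, ?_, ?_⟩
    · intro i hi
      have hd : dg G (n (i + 1)) = 4 := by
        simp only [stat] at hi
        split_ifs at hi with h1
        · exact hi
        · omega
      have := ((hHL V G hG h n o D hs).four i hd).1
      simp only [this]
    · rintro i ⟨h1, h2⟩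
      have key : ∀ v, stat G X v = 4 → v ∈ X ∧ dg G v = 4 := by
        intro v hv
        unfold stat at hv
        split_ifs at hv with h3
        · exact ⟨h3.1, hv⟩
        · omega
      obtain ⟨hx1, hd1⟩ := key _ h1
      obtain ⟨hx2, hd2⟩ := key _ h2
      have hL2 := ((hHL V G hG h n o D hs).four i hd2).2
      have hadj : G.Adj (n (i + 1)) (n i) := (hL2.mem (n i)).1 (by simp)
      exact hR.no44 _ hx2 _ hx1 hadj hd2 hd1
  have hno : ∀ (h : V) (n o : ℕ → V) (D : ℕ), HubSeq G h n o D → h ∈ X →
      ∀ c ∈ cs, (c.D = 0 ∨ c.D = D) → ∀ s,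
        ¬ c.Holds (fun i => stat G X (n i)) (fun i => stat G X (o i)) s := by
    intro h n o D hs hX c hc hD s
    refine hHX V G C X hG hR c _ (hcs c hc).1 (hpat c hc) h n o D hs ?_ s
    rcases hD with h0 | h0
    · exact Or.inl h0
    · exact Or.inr ⟨h0, hX⟩
  refine hTot V G C X hG hR M (wt T G X) hT.pos ?_ ?_ ?_ ?_ ?_ ?_
  · -- support
    intro t h hne
    obtain ⟨ht, hadj, hd, hc⟩ := wt_ne hT hne
    refine ⟨ht, hadj, hd, ?_⟩
    rcases hR.nbr t ht h hadj with hX | hC
    · right
      refine ⟨hX, ?_⟩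
      rw [cls, seven_kc] at hc
      unfold stat at hc
      split_ifs at hc with h1
      · exact hc
      · by_contra hcon
        exact h1 ⟨hX, by omega⟩
    · exact Or.inl hC
  · -- degree four
    intro t ht hd
    obtain ⟨n, o, hs⟩ := hSeq V G hG t
    rw [hd] at hs
    have h1 := hlow4 _ _ (hstat t n o 4 hs) (hno t n o 4 hs ht)
    have hl : IsLink G t [n 0, n 1, n 2, n 3] := hs.link
    rw [finsum_list hl.nodup (wt T G X t) (fun x hx => (hl.mem x).2 (wt_ne hT hx).2.1)]
    have e0 := wt4 hT ht hd hl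
    have e1 := wt4 hT ht hd (rot4 hL hl)
    have e2 := wt4 hT ht hd (rot4 hL (rot4 hL hl))
    have e3 := wt4 hT ht hd (rot4 hL (rot4 hL (rot4 hL hl)))
    simp only [List.map_cons, List.map_nil, List.sum_cons, List.sum_nil, e0, e1, e2, e3]
    have h2 := hT.sum4 _ (cls_mem G X (n 0)) _ (cls_mem G X (n 1)) _ (cls_mem G X (n 2)) _
      (cls_mem G X (n 3)) (by
        have h3 : ([cls G X (n 0), cls G X (n 1), cls G X (n 2), cls G X (n 3)].filter
            (fun c => decide (7 ≤ c))).length =
            ((List.range 4).filter (fun i => decide (7 ≤ stat G X (n i)))).length := by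
          simp only [cls, seven_kc, List.filter_cons, List.filter_nil, List.range_succ,
            List.range_zero, List.nil_append, List.cons_append]
          split_ifs <;> simp_all
        rw [h3]
        exact h1)
    omega
  · -- degree five
    intro t ht hd
    obtain ⟨n, o, hs⟩ := hSeq V G hG t
    rw [hd] at hs
    have h1 := hlow5 _ _ (hstat t n o 5 hs) (hno t n o 5 hs ht)
    have hl : IsLink G t [n 0, n 1, n 2, n 3, n 4] := hs.link
    rw [finsum_list hl.nodup (wt T G X t) (fun x hx => (hl.mem x).2 (wt_ne hT hx).2.1)]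
    have e0 := wt5 hT ht hd hl
    have e1 := wt5 hT ht hd (rot5 hL hl)
    have e2 := wt5 hT ht hd (rot5 hL (rot5 hL hl))
    have e3 := wt5 hT ht hd (rot5 hL (rot5 hL (rot5 hL hl)))
    have e4 := wt5 hT ht hd (rot5 hL (rot5 hL (rot5 hL (rot5 hL hl))))
    simp only [List.map_cons, List.map_nil, List.sum_cons, List.sum_nil, e0, e1, e2, e3, e4]
    have h2 := hT.sum5 _ (cls_mem G X (n 0)) _ (cls_mem G X (n 1)) _ (cls_mem G X (n 2)) _
      (cls_mem G X (n 3)) _ (cls_mem G X (n 4)) (by
        have h3 : ([cls G X (n 0), cls G X (n 1), cls G X (n 2), cls G X (n 3),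
            cls G X (n 4)].filter (fun c => decide (7 ≤ c))).length =
            ((List.range 5).filter (fun i => decide (7 ≤ stat G X (n i)))).length := by
          simp only [cls, seven_kc, List.filter_cons, List.filter_nil, List.range_succ,
            List.range_zero, List.nil_append, List.cons_append]
          split_ifs <;> simp_all
        rw [h3]
        exact h1)
    omega
  · -- caps, degree four
    intro t ht hd z
    have hsingle : ∀ z, wt T G X t z ≤ 2 * M := by
      intro z
      by_cases h0 : wt T G X t z = 0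
      · rw [h0]; exact Nat.zero_le _
      · have h1 := (wt_ne hT h0).2.1
        obtain ⟨z', h2, h3⟩ := exists_common hL hG h1
        obtain ⟨b, c, hl⟩ := link4 hL hG hd h1 h2 h3
        rw [wt4 hT ht hd hl]
        have := hT.cap4 _ (cls_mem G X z) _ (cls_mem G X z') _ (cls_mem G X b) _
          (cls_mem G X c)
        omega
    refine ⟨hsingle z, ?_⟩
    intro z' hzz'
    by_cases h0 : wt T G X t z = 0
    · rw [h0, zero_add]; exact hsingle z'
    by_cases h0' : wt T G X t z' = 0
    · rw [h0', add_zero]; exact hsingle z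
    have h1 := (wt_ne hT h0).2.1
    have h2 := (wt_ne hT h0').2.1
    obtain ⟨b, c, hl⟩ := link4 hL hG hd h1 h2 hzz'
    rw [wt4 hT ht hd hl, wt4 hT ht hd (rot4 hL hl)]
    exact hT.cap4 _ (cls_mem G X z) _ (cls_mem G X z') _ (cls_mem G X b) _ (cls_mem G X c)
  · -- caps, degree five
    intro t ht hd z
    have hsingle : ∀ z, wt T G X t z ≤ M := by
      intro z
      by_cases h0 : wt T G X t z = 0
      · rw [h0]; exact Nat.zero_le _
      · have h1 := (wt_ne hT h0).2.1
        obtain ⟨z', h2, h3⟩ := exists_common hL hG h1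
        obtain ⟨b, c, d, hl⟩ := link5 hL hG hd h1 h2 h3
        rw [wt5 hT ht hd hl]
        have := hT.cap5 _ (cls_mem G X z) _ (cls_mem G X z') _ (cls_mem G X b) _
          (cls_mem G X c) _ (cls_mem G X d)
        omega
    refine ⟨hsingle z, ?_⟩
    intro z' hzz'
    by_cases h0 : wt T G X t z = 0
    · rw [h0, zero_add]; exact hsingle z'
    by_cases h0' : wt T G X t z' = 0
    · rw [h0', add_zero]; exact hsingle z
    have h1 := (wt_ne hT h0).2.1
    have h2 := (wt_ne hT h0').2.1
    obtain ⟨b, c, d, hl⟩ := link5 hL hG hd h1 h2 hzz'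
    rw [wt5 hT ht hd hl, wt5 hT ht hd (rot5 hL hl)]
    exact hT.cap5 _ (cls_mem G X z) _ (cls_mem G X z') _ (cls_mem G X b) _ (cls_mem G X c) _
      (cls_mem G X d)
  · -- hubs
    intro h hX hd
    obtain ⟨n, o, hs⟩ := hSeq V G hG h
    have h1 := hcomb _ hd _ _ (hstat h n o _ hs) (hno h n o _ hs hX)
    have hlk := hHL V G hG h n o _ hs
    have hl := hs.link
    rw [finsum_list hl.nodup (fun t => wt T G X t h)
      (fun x hx => (hl.mem x).2 (wt_ne hT hx).2.1.symm), List.map_map, sum_range_list]
    refine le_trans (le_of_eq ?_) h1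
    have hshift : ∑ i ∈ Finset.range (dg G h), ((fun t => wt T G X t h) ∘ n) i =
        ∑ i ∈ Finset.range (dg G h), wt T G X (n (i + 1)) h := by
      have h2 := Finset.sum_range_succ (fun i => wt T G X (n i) h) (dg G h)
      have h3 := Finset.sum_range_succ' (fun i => wt T G X (n i) h) (dg G h)
      have h4 : n (dg G h) = n 0 := by
        have := hs.perN 0
        rwa [zero_add] at this
      rw [h4] at h2
      rw [h2] at h3
      simp only [Function.comp]
      exact Nat.add_right_cancel h3
    rw [hshift]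
    refine Finset.sum_congr rfl fun i _ => ?_
    have hcls : cls G X h = kc (if dg G h ≤ 8 then dg G h else 9) := by
      unfold cls stat
      by_cases h8 : dg G h ≤ 8
      · rw [if_pos ⟨hX, h8⟩, if_pos h8]
      · rw [if_neg (fun hh => h8 hh.2), if_neg h8]
    rw [← hcls]
    unfold WTable.recv
    by_cases h4 : stat G X (n (i + 1)) = 4
    · rw [if_pos h4]
      have h5 : n (i + 1) ∈ X ∧ dg G (n (i + 1)) = 4 := by
        unfold stat at h4
        split_ifs at h4 with h6
        · exact ⟨h6.1, h4⟩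
        · omega
      rw [wt4 hT h5.1 h5.2 (hlk.four i h5.2).2]
      rfl
    · rw [if_neg h4]
      by_cases h5 : stat G X (n (i + 1)) = 5
      · rw [if_pos h5]
        have h6 : n (i + 1) ∈ X ∧ dg G (n (i + 1)) = 5 := by
          unfold stat at h5
          split_ifs at h5 with h6
          · exact ⟨h6.1, h5⟩
          · omega
        obtain ⟨xs, hxs, hlx⟩ := hlk.five i (by omega)
        have hxs0 : xs = [] := List.length_eq_zero_iff.1 (by omega)
        subst hxs0
        have hlx' : IsLink G (n (i + 1)) [h, n (i + 2), o (i + 1), o i, n i] := hlx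
        rw [wt5 hT h6.1 h6.2 hlx']
        rfl
      · rw [if_neg h5]
        by_contra hne
        obtain ⟨h6, -, h7, -⟩ := wt_ne hT hne
        unfold stat at h4 h5
        rcases h7 with h7 | h7
        · rw [if_pos ⟨h6, by omega⟩] at h4
          exact h4 h7
        · rw [if_pos ⟨h6, by omega⟩] at h5
          exact h5 h7

end StrongArb.H27
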