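import Pool.Agent.Lib.MP_39c2b7_co.Interfaces

/-!
# Strong arboricity: module PDUAL (planar graphs have duals)
-/

set_option linter.all false

namespace StrongArb.H27

open Classical

section

variable {V : Type} (G : SimpleGraph V)

/-- a dart of each edge -/
noncomputable def dartOf (e : G.edgeSet) : G.Dart :=
  Classical.choose (show ∃ d : G.Dart, d.edge = e.1 from by
    obtain ⟨e, he⟩ := e
    induction e using Sym2.ind with
    | _ u v => exact ⟨⟨(u, v), he⟩, rfl⟩)

lemma dartOf_edge (e : G.edgeSet) : (dartOf G e).edge = e.1 :=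
  Classical.choose_spec (show ∃ d : G.Dart, d.edge = e.1 from by
    obtain ⟨e, he⟩ := e
    induction e using Sym2.ind with
    | _ u v => exact ⟨⟨(u, v), he⟩, rfl⟩)

lemma dartOf_cases (d : G.Dart) : dartOf G ⟨d.edge, d.edge_mem⟩ = d ∨
    dartOf G ⟨d.edge, d.edge_mem⟩ = d.symm :=
  (SimpleGraph.dart_edge_eq_iff _ _).1 (dartOf_edge G ⟨d.edge, d.edge_mem⟩)

variable (rot : Equiv.Perm G.Dart)

abbrev Fc : Type := Quotient (Equiv.Perm.SameCycle.setoid (facePerm G rot))

def fc (d : G.Dart) : Fc G rot := Quotient.mk _ d

lemma fc_symm (d : G.Dart) : fc G rot d.symm = fc G rot (rot d) := by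
  apply Quotient.sound
  show (facePerm G rot).SameCycle d.symm (rot d)
  refine ⟨1, ?_⟩
  rw [zpow_one]
  show rot d.symm.symm = rot d
  rw [SimpleGraph.Dart.symm_symm]

/-- the coboundary -/
noncomputable def del : (Fc G rot → ZMod 2) →ₗ[ZMod 2] (G.edgeSet → ZMod 2) where
  toFun x e := x (fc G rot (dartOf G e)) + x (fc G rot (dartOf G e).symm)
  map_add' x y := by
    funext e
    simp only [Pi.add_apply]
    ring
  map_smul' c x := by
    funext e
    simp only [Pi.smul_apply, smul_eq_mul, RingHom.id_apply]
    ring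

lemma del_apply (x : Fc G rot → ZMod 2) (d : G.Dart) :
    del G rot x ⟨d.edge, d.edge_mem⟩ = x (fc G rot d) + x (fc G rot d.symm) := by
  show x (fc G rot (dartOf G ⟨d.edge, d.edge_mem⟩)) +
    x (fc G rot (dartOf G ⟨d.edge, d.edge_mem⟩).symm) = _
  rcases dartOf_cases G d with h | h
  · rw [h]
  · rw [h, SimpleGraph.Dart.symm_symm, add_comm]

end

section fin

variable {V : Type} [Fintype V] (G : SimpleGraph V) [Fintype G.edgeSet] [Fintype G.Dart]

/-- the incidence matrix -/
noncomputable def inc : Matrix V G.edgeSet (ZMod 2) := fun v e => if v ∈ e.1 then 1 else 0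

lemma inc_apply (x : G.edgeSet → ZMod 2) (v : V) :
    (inc G).mulVec x v = ∑ e ∈ Finset.univ.filter (fun e : G.edgeSet => v ∈ e.1), x e := by
  rw [Finset.sum_filter]
  simp only [Matrix.mulVec, dotProduct, inc, ite_mul, one_mul, zero_mul]

lemma inc_darts (x : G.edgeSet → ZMod 2) (v : V) :
    (inc G).mulVec x v =
      ∑ d ∈ Finset.univ.filter (fun d : G.Dart => d.fst = v), x ⟨d.edge, d.edge_mem⟩ := by
  rw [inc_apply]
  symm
  refine Finset.sum_bij (fun d _ => ⟨d.edge, d.edge_mem⟩) ?_ ?_ ?_ ?_
  · intro d hd
    rw [Finset.mem_filter] at hd ⊢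
    refine ⟨Finset.mem_univ _, ?_⟩
    rw [← hd.2]
    exact Sym2.mem_mk_left _ _
  · intro d hd d' hd' h
    rw [Finset.mem_filter] at hd hd'
    have h1 : d.edge = d'.edge := congrArg Subtype.val h
    rcases (SimpleGraph.dart_edge_eq_iff _ _).1 h1 with h2 | h2
    · exact h2
    · exfalso
      have h3 : d.fst = d'.snd := by rw [h2]; rfl
      have h4 := d'.adj
      rw [← h3, hd.2, hd'.2] at h4
      exact G.loopless.irrefl _ h4
  · intro e he
    rw [Finset.mem_filter] at he
    obtain ⟨w, hw⟩ := he.2
    have hadj : G.Adj v w := by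
      have := e.2
      rw [hw] at this
      exact this
    refine ⟨⟨(v, w), hadj⟩, ?_, ?_⟩
    · rw [Finset.mem_filter]
      exact ⟨Finset.mem_univ _, rfl⟩
    · apply Subtype.ext
      exact hw.symm
  · intro d _
    rfl

lemma inc_del (rot : Equiv.Perm G.Dart) (hrot : ∀ d, (rot d).fst = d.fst)
    (x : Fc G rot → ZMod 2) : (inc G).mulVec (del G rot x) = 0 := by
  funext v
  rw [inc_darts]
  simp only [del_apply, fc_symm]
  rw [Finset.sum_add_distrib]
  have h : ∑ d ∈ Finset.univ.filter (fun d : G.Dart => d.fst = v), x (fc G rot (rot d)) =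
      ∑ d ∈ Finset.univ.filter (fun d : G.Dart => d.fst = v), x (fc G rot d) := by
    refine Finset.sum_equiv rot ?_ ?_
    · intro d
      simp only [Finset.mem_filter, Finset.mem_univ, true_and, hrot]
    · intro d _
      rfl
  rw [h]
  exact CharTwo.add_self_eq_zero _

/-- rank of the incidence matrix -/
lemma ker_inc_le [Fintype G.ConnectedComponent] :
    Module.finrank (ZMod 2) (LinearMap.ker (inc G).mulVecLin) + Fintype.card V ≤
      Fintype.card G.edgeSet + Fintype.card G.ConnectedComponent := by
  have h1 := LinearMap.finrank_range_add_finrank_ker (inc G).mulVecLin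
  have h2 := LinearMap.finrank_range_add_finrank_ker (inc G).transpose.mulVecLin
  rw [Module.finrank_fintype_fun_eq_card] at h1 h2
  have h3 : Module.finrank (ZMod 2) (LinearMap.range (inc G).mulVecLin) =
      Module.finrank (ZMod 2) (LinearMap.range (inc G).transpose.mulVecLin) := by
    have := Matrix.rank_transpose (inc G)
    exact this.symm
  have h4 : Module.finrank (ZMod 2) (LinearMap.ker (inc G).transpose.mulVecLin) ≤
      Fintype.card G.ConnectedComponent := by
    let T : LinearMap.ker (inc G).transpose.mulVecLin →ₗ[ZMod 2]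
        (G.ConnectedComponent → ZMod 2) :=
      { toFun := fun y C => y.1 C.out
        map_add' := fun _ _ => rfl
        map_smul' := fun _ _ => rfl }
    have hT : Function.Injective T := by
      rw [← LinearMap.ker_eq_bot, LinearMap.ker_eq_bot']
      intro y hy
      have hadj : ∀ u v, G.Adj u v → y.1 u = y.1 v := by
        intro u v huv
        have hk := y.2
        rw [LinearMap.mem_ker] at hk
        have hk2 := congrFun hk ⟨s(u, v), huv⟩
        simp only [Matrix.mulVecLin_apply, Matrix.mulVec, dotProduct, Matrix.transpose_apply,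
          inc, Pi.zero_apply, Sym2.mem_iff, ite_mul, one_mul, zero_mul] at hk2
        have hne : u ≠ v := huv.ne
        rw [← Finset.sum_filter] at hk2
        have hf : Finset.univ.filter (fun a : V => a = u ∨ a = v) = {u, v} := by
          ext a; simp
        rw [hf, Finset.sum_pair hne] at hk2
        exact CharTwo.add_eq_zero.1 hk2
      have hreach : ∀ u v, G.Reachable u v → y.1 u = y.1 v := by
        rintro u v ⟨p⟩
        induction p with
        | nil => rfl
        | cons h _ ih => exact (hadj _ _ h).trans ih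
      apply Subtype.ext
      funext v
      have h5 := congrFun hy (G.connectedComponentMk v)
      have h6 : G.Reachable (G.connectedComponentMk v).out v := by
        apply SimpleGraph.ConnectedComponent.exact
        exact Quot.out_eq _
      rw [← hreach _ _ h6]
      exact h5
    have := LinearMap.finrank_le_finrank_of_injective hT
    rwa [Module.finrank_fintype_fun_eq_card] at this
  omega

/-- components with an edge -/
abbrev Big : Type := {C : G.ConnectedComponent // ∃ d : G.Dart, G.connectedComponentMk d.fst = C}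

lemma big_card [Fintype G.ConnectedComponent] [Fintype (Big G)]
    [Fintype {v : V // ∀ w, ¬ G.Adj v w}] :
    Fintype.card (Big G) + Fintype.card {v : V // ∀ w, ¬ G.Adj v w} ≤
      Fintype.card G.ConnectedComponent := by
  rw [← Fintype.card_sum]
  refine Fintype.card_le_of_injective
    (Sum.elim (fun C => C.1) (fun v => G.connectedComponentMk v.1)) ?_
  have hiso : ∀ v : {v : V // ∀ w, ¬ G.Adj v w}, ∀ u, G.Reachable v.1 u → u = v.1 := by
    rintro v u ⟨p⟩
    cases p with
    | nil => rfl
    | cons h _ => exact absurd h (v.2 _)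
  rintro (C | v) (C' | v') h
  · exact congrArg Sum.inl (Subtype.ext h)
  · exfalso
    obtain ⟨d, hd⟩ := C.2
    have h1 : G.connectedComponentMk v'.1 = G.connectedComponentMk d.fst := by
      rw [hd]; exact h.symm
    have h2 := hiso v' d.fst (SimpleGraph.ConnectedComponent.exact h1)
    have h3 := d.adj
    rw [h2] at h3
    exact v'.2 _ h3
  · exfalso
    obtain ⟨d, hd⟩ := C'.2
    have h1 : G.connectedComponentMk v.1 = G.connectedComponentMk d.fst := by
      rw [hd]; exact h
    have h2 := hiso v d.fst (SimpleGraph.ConnectedComponent.exact h1)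
    have h3 := d.adj
    rw [h2] at h3
    exact v.2 _ h3
  · refine congrArg Sum.inr (Subtype.ext ?_)
    exact (hiso v v'.1 (SimpleGraph.ConnectedComponent.exact h)).symm

lemma ker_del_le (rot : Equiv.Perm G.Dart) (hrot : IsRotation G rot) [Fintype (Fc G rot)]
    [Fintype (Big G)] :
    Module.finrank (ZMod 2) (LinearMap.ker (del G rot)) ≤ Fintype.card (Big G) := by
  let T : LinearMap.ker (del G rot) →ₗ[ZMod 2] (Big G → ZMod 2) :=
    { toFun := fun y C => y.1 (fc G rot (Classical.choose C.2))
      map_add' := fun _ _ => rfl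
      map_smul' := fun _ _ => rfl }
  have hT : Function.Injective T := by
    rw [← LinearMap.ker_eq_bot, LinearMap.ker_eq_bot']
    intro y hy
    have hsym : ∀ d : G.Dart, y.1 (fc G rot d) = y.1 (fc G rot d.symm) := by
      intro d
      have hk := y.2
      rw [LinearMap.mem_ker] at hk
      have hk2 := congrFun hk ⟨d.edge, d.edge_mem⟩
      rw [del_apply] at hk2
      exact CharTwo.add_eq_zero.1 hk2
    have hr : ∀ d : G.Dart, y.1 (fc G rot d) = y.1 (fc G rot (rot d)) := by
      intro d
      rw [hsym d, fc_symm]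
    have hpow : ∀ (n : ℕ) (d : G.Dart), y.1 (fc G rot d) = y.1 (fc G rot ((rot ^ n) d)) := by
      intro n
      induction n with
      | zero => intro d; simp
      | succ n ih =>
        intro d
        rw [ih d, hr, pow_succ', Equiv.Perm.mul_apply]
    have hv : ∀ d d' : G.Dart, d.fst = d'.fst → y.1 (fc G rot d) = y.1 (fc G rot d') := by
      intro d d' h
      obtain ⟨n, hn⟩ := (hrot.trans d d' h).exists_nat_pow_eq
      rw [← hn]
      exact hpow n d
    have hreach : ∀ u v, G.Reachable u v → ∀ d d' : G.Dart, d.fst = u → d'.fst = v →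
        y.1 (fc G rot d) = y.1 (fc G rot d') := by
      rintro u v ⟨p⟩
      induction p with
      | nil => intro d d' h h'; exact hv d d' (h.trans h'.symm)
      | @cons a b c h _ ih =>
        intro d d' hd hd'
        have h1 := hv d ⟨(a, b), h⟩ hd
        rw [h1, hsym]
        exact ih _ d' rfl hd'
    apply Subtype.ext
    funext f
    obtain ⟨d, rfl⟩ := Quotient.exists_rep f
    have h5 := congrFun hy ⟨G.connectedComponentMk d.fst, ⟨d, rfl⟩⟩
    have h6 := Classical.choose_spec (⟨d, rfl⟩ : ∃ d' : G.Dart,
      G.connectedComponentMk d'.fst = G.connectedComponentMk d.fst)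
    have h7 := hreach _ _ (SimpleGraph.ConnectedComponent.exact h6) _ d rfl rfl
    show y.1 (fc G rot d) = 0
    rw [← h7]
    exact h5
  have := LinearMap.finrank_le_finrank_of_injective hT
  rwa [Module.finrank_fintype_fun_eq_card] at this

end fin

/-- indicator of an edge set -/
noncomputable def ind {V : Type} (G : SimpleGraph V) (F : Set (Sym2 V)) : G.edgeSet → ZMod 2 :=
  fun e => if e.1 ∈ F then 1 else 0

lemma even_iff {V : Type} [Fintype V] (G : SimpleGraph V) [Fintype G.edgeSet]
    (F : Set (Sym2 V)) (hF : F ⊆ G.edgeSet) :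
    (∀ v : V, Even ({e | e ∈ F ∧ v ∈ e} : Set (Sym2 V)).ncard) ↔
      (inc G).mulVec (ind G F) = 0 := by
  have key : ∀ v : V, (inc G).mulVec (ind G F) v =
      ((({e | e ∈ F ∧ v ∈ e} : Set (Sym2 V)).ncard : ℕ) : ZMod 2) := by
    intro v
    rw [inc_apply]
    simp only [ind]
    rw [← Finset.sum_filter, Finset.filter_filter, Finset.sum_const, nsmul_eq_mul, mul_one]
    congr 1
    have himg : ({e | e ∈ F ∧ v ∈ e} : Set (Sym2 V)) = Subtype.val ''
        ((Finset.univ.filter (fun e : G.edgeSet => v ∈ e.1 ∧ e.1 ∈ F) : Finset G.edgeSet) :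
          Set G.edgeSet) := by
      ext e
      constructor
      · rintro ⟨h1, h2⟩
        exact ⟨⟨e, hF h1⟩, by simp [h1, h2], rfl⟩
      · rintro ⟨e', h, rfl⟩
        simp only [Finset.coe_filter, Finset.mem_univ, true_and, Set.mem_ofPred_eq] at h
        exact ⟨h.2, h.1⟩
    rw [himg, Set.ncard_image_of_injective _ Subtype.val_injective, Set.ncard_coe_finset]
  constructor
  · intro h
    funext v
    rw [key, Pi.zero_apply, ZMod.natCast_eq_zero_iff_even]
    exact h v
  · intro h v
    have := congrFun h v
    rw [key, Pi.zero_apply, ZMod.natCast_eq_zero_iff_even] at this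
    exact this

/-- the ends of the dual edges -/
noncomputable def dends {V : Type} (G : SimpleGraph V) (rot : Equiv.Perm G.Dart) :
    Sym2 V → Option (Fc G rot) × Option (Fc G rot) := fun e =>
  if h : e ∈ G.edgeSet then
    (some (fc G rot (dartOf G ⟨e, h⟩)), some (fc G rot (dartOf G ⟨e, h⟩).symm)) else
    (none, none)

lemma dends_pos {V : Type} (G : SimpleGraph V) (rot : Equiv.Perm G.Dart) {e : Sym2 V}
    (h : e ∈ G.edgeSet) : dends G rot e =
      (some (fc G rot (dartOf G ⟨e, h⟩)), some (fc G rot (dartOf G ⟨e, h⟩).symm)) := dif_pos h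

theorem pdual : PlanarDualStatement := by
  intro V _ G ⟨rot, hrot, heul⟩
  have := Fintype.ofFinite V
  have : Finite G.Dart := inferInstance
  have := Fintype.ofFinite G.Dart
  have : Finite (Sym2 V) := inferInstance
  have := Fintype.ofFinite G.edgeSet
  have : Finite G.ConnectedComponent := inferInstance
  have := Fintype.ofFinite G.ConnectedComponent
  have : Finite (Fc G rot) := inferInstance
  have := Fintype.ofFinite (Fc G rot)
  have := Fintype.ofFinite (Big G)
  have := Fintype.ofFinite {v : V // ∀ w, ¬ G.Adj v w}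
  -- the dimension count
  have hle : LinearMap.range (del G rot) ≤ LinearMap.ker (inc G).mulVecLin := by
    rintro _ ⟨x, rfl⟩
    rw [LinearMap.mem_ker, Matrix.mulVecLin_apply]
    exact inc_del G rot hrot.fst x
  have hdim : Module.finrank (ZMod 2) (LinearMap.ker (inc G).mulVecLin) ≤
      Module.finrank (ZMod 2) (LinearMap.range (del G rot)) := by
    have h1 := LinearMap.finrank_range_add_finrank_ker (del G rot)
    rw [Module.finrank_fintype_fun_eq_card] at h1
    have h2 := ker_del_le G rot hrot
    have h3 := big_card G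
    have h4 := ker_inc_le G
    have h5 : ({v | ∀ w, ¬ G.Adj v w} : Set V).ncard =
        Fintype.card {v : V // ∀ w, ¬ G.Adj v w} := by
      rw [← Nat.card_eq_fintype_card]
      rfl
    have h6 : G.edgeSet.ncard = Fintype.card G.edgeSet := by
      rw [← Nat.card_eq_fintype_card]
      rfl
    have h7 : Nat.card (Quotient (Equiv.Perm.SameCycle.setoid (facePerm G rot))) =
        Fintype.card (Fc G rot) := Nat.card_eq_fintype_card
    have h8 : Nat.card V = Fintype.card V := Nat.card_eq_fintype_card
    have h9 : Nat.card G.ConnectedComponent = Fintype.card G.ConnectedComponent :=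
      Nat.card_eq_fintype_card
    rw [faceCount, h5, h6, h7, h8, h9] at heul
    omega
  have heq : LinearMap.range (del G rot) = LinearMap.ker (inc G).mulVecLin :=
    Submodule.eq_of_le_of_finrank_le hle hdim
  -- the dual
  refine ⟨Option (Fc G rot), inferInstance, dends G rot, ?_⟩
  intro F
  constructor
  · rintro ⟨hF, heven⟩
    have h1 : ind G F ∈ LinearMap.range (del G rot) := by
      rw [heq, LinearMap.mem_ker, Matrix.mulVecLin_apply]
      exact (even_iff G F hF).1 heven
    obtain ⟨y, hy⟩ := h1
    refine ⟨{a | ∃ f, a = some f ∧ y f = 1}, ?_⟩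
    intro e
    constructor
    · intro he
      refine ⟨hF he, ?_⟩
      rw [dends_pos G rot (hF he)]
      have h2 := congrFun hy ⟨e, hF he⟩
      simp only [del, LinearMap.coe_mk, AddHom.coe_mk, ind, he, if_true] at h2
      simp only [Set.mem_ofPred_eq, Option.some.injEq, exists_eq_left']
      intro h3
      by_cases h4 : y (fc G rot (dartOf G ⟨e, hF he⟩)) = 1
      · rw [h4, h3.1 h4] at h2
        exact absurd h2 (by decide)
      · have h5 : ∀ a : ZMod 2, a ≠ 1 → a = 0 := by decide
        rw [h5 _ h4, h5 _ (fun h => h4 (h3.2 h))] at h2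
        exact absurd h2 (by decide)
    · rintro ⟨he, hne⟩
      rw [dends_pos G rot he] at hne
      simp only [Set.mem_ofPred_eq, Option.some.injEq, exists_eq_left'] at hne
      by_contra hcon
      have h2 := congrFun hy ⟨e, he⟩
      simp only [del, LinearMap.coe_mk, AddHom.coe_mk, ind, hcon, if_false] at h2
      have h3 := CharTwo.add_eq_zero.1 h2
      exact hne (by rw [h3])
  · rintro ⟨S, hS⟩
    have hF : F ⊆ G.edgeSet := fun e he => ((hS e).1 he).1
    refine ⟨hF, (even_iff G F hF).2 ?_⟩
    have h1 : ind G F = del G rot (fun f => if some f ∈ S then 1 else 0) := by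
      funext e
      obtain ⟨e, he⟩ := e
      have h2 := hS e
      rw [dends_pos G rot he] at h2
      simp only [del, LinearMap.coe_mk, AddHom.coe_mk, ind]
      by_cases a : some (fc G rot (dartOf G ⟨e, he⟩)) ∈ S <;>
      by_cases b : some (fc G rot (dartOf G ⟨e, he⟩).symm) ∈ S
      · have : e ∉ F := fun h => (h2.1 h).2 ⟨fun _ => b, fun _ => a⟩
        rw [if_neg this, if_pos a, if_pos b]; decide
      · have : e ∈ F := h2.2 ⟨he, fun h => b (h.1 a)⟩
        rw [if_pos this, if_pos a, if_neg b]; decide
      · have : e ∈ F := h2.2 ⟨he, fun h => a (h.2 b)⟩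
        rw [if_pos this, if_neg a, if_pos b]; decide
      · have : e ∉ F := fun h => (h2.1 h).2 ⟨fun h => absurd h a, fun h => absurd h b⟩
        rw [if_neg this, if_neg a, if_neg b]; decide
    rw [h1]
    exact inc_del G rot hrot.fst _

end StrongArb.H27
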